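import Pool.Agent.P.MP_c3cac0_an.Basic

-- part Pool.Agent.P.MP_c3cac0_an.Deg3
section

set_option autoImplicit false

namespace Pool.Agent.P.MP_c3cac0_an

open Finset Polynomial ComplexConjugate

noncomputable section

lemma real_ineq (r e h x : ℝ) (hr0 : 0 ≤ r) (hr1 : r < 1) (he0 : 0 ≤ e) (he1 : e < 1)
    (hrx : r ≤ x) (hx1 : x < 1)
    (h1 : h * (1 + x ^ 2) = (2 * (1 - r ^ 2) * (1 + e ^ 2) + (1 - e ^ 2) * (1 + r ^ 2)) * x)
    (h2 : 2 * (1 - r ^ 2) * e - (1 - e ^ 2) * r ≤ h) :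
    e * (1 - r ^ 4 * e ^ 2) ≤ h := by
  have hd : 0 < 1 - r ^ 2 := by nlinarith
  have hη : 0 < 1 - e ^ 2 := by nlinarith
  set S := 2 * (1 - r ^ 2) * (1 + e ^ 2) + (1 - e ^ 2) * (1 + r ^ 2) with hS
  have hS0 : 0 < S := by positivity
  by_cases hc : e * (1 + r ^ 2) ^ 2 ≤ 2 * r * (1 + e ^ 2)
  · -- use the nearest critical point
    have h3 : S * r ≤ h * (1 + r ^ 2) := by
      have hx : 0 < 1 + x ^ 2 := by positivity
      have : S * r * (1 + x ^ 2) ≤ h * (1 + r ^ 2) * (1 + x ^ 2) := by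
        have e1 : h * (1 + r ^ 2) * (1 + x ^ 2) = S * x * (1 + r ^ 2) := by
          rw [← h1]; ring
        rw [e1]
        have : 0 ≤ (x - r) * (1 - r * x) := mul_nonneg (by linarith) (by nlinarith)
        nlinarith
      exact le_of_mul_le_mul_right this hx
    have h4 : e * (1 - r ^ 4 * e ^ 2) * (1 + r ^ 2) ≤ S * r := by
      have a1 : (1 - r ^ 2) * (e * (1 + r ^ 2) ^ 2) ≤ (1 - r ^ 2) * (2 * r * (1 + e ^ 2)) :=
        mul_le_mul_of_nonneg_left hc hd.le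
      have a2 : e * r ^ 3 ≤ 1 := by
        have : r ^ 3 ≤ 1 := pow_le_one₀ hr0 hr1.le
        nlinarith [pow_nonneg hr0 3]
      have a3 : 0 ≤ (1 - e ^ 2) * (1 + r ^ 2) * r * (1 - e * r ^ 3) := by
        have : 0 ≤ 1 - e * r ^ 3 := by linarith
        positivity
      rw [hS]; nlinarith
    have hp : 0 < 1 + r ^ 2 := by positivity
    exact le_of_mul_le_mul_right (h4.trans h3) hp
  · push Not at hc
    have he : 0 < e := by
      rcases he0.eq_or_lt with h | h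
      · subst h; nlinarith
      · exact h
    have b1 : 4 * r < (1 + r ^ 2) ^ 2 := by
      have : 4 * r * e ≤ 2 * r * (1 + e ^ 2) := by nlinarith [sq_nonneg (1 - e), mul_nonneg hr0 (sq_nonneg (1 - e))]
      have : e * (4 * r) < e * (1 + r ^ 2) ^ 2 := by linarith
      exact lt_of_mul_lt_mul_left this he0
    have b2 : r < 3 / 10 := by
      by_contra hb
      push Not at hb
      have : 0 ≤ (1 - r) * (r ^ 3 + r ^ 2 + 3 * r - 1) :=
        mul_nonneg (by linarith) (by nlinarith [sq_nonneg r, pow_nonneg hr0 3, mul_nonneg hr0 (sq_nonneg (r - 3/10))])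
      nlinarith
    have b3 : r ^ 2 ≤ 9 / 100 := by nlinarith
    have b4 : r ≤ e * (6 / 10) := by
      have : (1 + r ^ 2) ^ 2 ≤ 12 / 10 := by nlinarith [sq_nonneg r]
      nlinarith [sq_nonneg e, mul_nonneg hr0 (sq_nonneg e)]
    have b5 : (1 - e ^ 2) * r * (1 + e * r ^ 3) ≤ e * (1 - r ^ 2) ^ 2 := by
      have c1 : e * r ^ 3 ≤ 3 / 100 := by
        have : r ^ 3 ≤ 3 / 100 := by nlinarith [sq_nonneg r]
        nlinarith [pow_nonneg hr0 3]
      have c2 : (1 - e ^ 2) * r ≤ r := by nlinarith [mul_nonneg hr0 (sq_nonneg e)]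
      have c3 : (1 - e ^ 2) * r * (1 + e * r ^ 3) ≤ r * (103 / 100) :=
        mul_le_mul c2 (by linarith) (by positivity) hr0
      have c4 : 8 / 10 ≤ (1 - r ^ 2) ^ 2 := by nlinarith [sq_nonneg r]
      nlinarith
    nlinarith

lemma norm_one_sub_le {a z : ℂ} (ha : ‖a‖ < 1) (hz : 1 ≤ ‖z‖) : ‖1 - conj a * z‖ ≤ ‖z - a‖ := by
  have e : ‖z - a‖ ^ 2 - ‖1 - conj a * z‖ ^ 2 = (‖z‖ ^ 2 - 1) * (1 - ‖a‖ ^ 2) := by
    simp only [← Complex.normSq_eq_norm_sq, Complex.normSq_apply]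
    simp
    ring
  have : 0 ≤ (‖z‖ ^ 2 - 1) * (1 - ‖a‖ ^ 2) :=
    mul_nonneg (by nlinarith) (by nlinarith [norm_nonneg a])
  exact abs_le_of_sq_le_sq' (by linarith) (norm_nonneg _) |>.2

lemma norm_sub_lt {a z : ℂ} (ha : ‖a‖ < 1) (hz : ‖z‖ < 1) : ‖z - a‖ < ‖1 - conj a * z‖ := by
  have e : ‖1 - conj a * z‖ ^ 2 - ‖z - a‖ ^ 2 = (1 - ‖z‖ ^ 2) * (1 - ‖a‖ ^ 2) := by
    simp only [← Complex.normSq_eq_norm_sq, Complex.normSq_apply]
    simp
    ring
  have : 0 < (1 - ‖z‖ ^ 2) * (1 - ‖a‖ ^ 2) :=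
    mul_pos (by nlinarith [norm_nonneg z]) (by nlinarith [norm_nonneg a])
  exact abs_lt_of_sq_lt_sq' (by linarith) (norm_nonneg _) |>.2

lemma deg3_core (a b K x y : ℂ) (ha0 : a ≠ 0) (hb0 : b ≠ 0) (ha : ‖a‖ < 1) (hb : ‖b‖ < 1)
    (hx : ‖x‖ < 1) (hy : ‖y‖ < 1) (hxy : ‖x‖ ≤ ‖y‖)
    (hN : ∀ z, g a z * g b z + ((1 - conj a * a) * z * g b z + (1 - conj b * b) * z * g a z) =
      K * (g x z * g y z)) :
    ‖(x - a) * (x - b)‖ ≤ ‖a‖ * ‖b‖ * ‖(1 - conj a * x) * (1 - conj b * x)‖ := by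
  have hx0 : x ≠ 0 := by
    rintro rfl
    have := hN 0
    simp [g, ha0, hb0] at this
  have hD : (1 - conj a * x) * (1 - conj b * x) ≠ 0 :=
    mul_ne_zero (one_sub_ne ha hx.le) (one_sub_ne hb hx.le)
  set D := (1 - conj a * x) * (1 - conj b * x) with hDdef
  set w := x * ((x - a) * (x - b)) / D with hw
  have hwD : w * D = x * ((x - a) * (x - b)) := by rw [hw]; field_simp
  have hw1 : ‖w‖ < 1 := by
    rw [hw, norm_div, div_lt_one (norm_pos_iff.2 hD), hDdef, norm_mul, norm_mul, norm_mul]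
    have h1 := norm_sub_lt ha hx
    have h2 := norm_sub_lt hb hx
    have h3 : ‖x - a‖ * ‖x - b‖ < ‖1 - conj a * x‖ * ‖1 - conj b * x‖ :=
      mul_lt_mul'' h1 h2 (norm_nonneg _) (norm_nonneg _)
    have h4 : 0 ≤ ‖x - a‖ * ‖x - b‖ := by positivity
    nlinarith [norm_nonneg x]
  have hNx := hN x
  have hgx : g x x = 0 := by simp [g]
  rw [hgx, zero_mul, mul_zero] at hNx
  -- derivative condition
  have hP' : 3 * x ^ 2 - 2 * (a + b + w * (conj a * conj b)) * x + (a * b + w * (conj a + conj b)) = 0 := by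
    apply mul_left_cancel₀ hD
    rw [mul_zero]
    unfold g at hNx
    rw [hDdef] at hwD ⊢
    linear_combination hNx + ((conj a + conj b) - 2 * conj a * conj b * x) * hwD
  set e := a + b + w * (conj a * conj b) - 2 * x with he
  have r1 : a + b + w * (conj a * conj b) = 2 * x + e := by rw [he]; ring
  have r2 : a * b + w * (conj a + conj b) = x ^ 2 + 2 * x * e := by
    rw [he]; linear_combination hP'
  have r3 : w = x ^ 2 * e := by
    rw [hDdef] at hwD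
    rw [he]; linear_combination hwD + x * hP'
  have c1 : conj a + conj b + conj w * (a * b) = 2 * conj x + conj e := by
    have := congrArg conj r1
    simpa [map_ofNat] using this
  have c2 : conj a * conj b + conj w * (a + b) = conj x ^ 2 + 2 * conj x * conj e := by
    have := congrArg conj r2
    simpa [map_ofNat] using this
  have c3 : conj w = conj x ^ 2 * conj e := by
    have := congrArg conj r3
    simpa using this
  have he1 : ‖e‖ < 1 := by
    by_contra hcon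
    push Not at hcon
    have q1 : e * ((e - a) * (e - b)) = w * ((1 - conj a * e) * (1 - conj b * e)) := by
      linear_combination (-e ^ 2) * r1 + e * r2 - r3
    have q2 := congrArg (fun t : ℂ => ‖t‖) q1
    simp only [norm_mul] at q2
    have h1 := norm_one_sub_le ha hcon
    have h2 := norm_one_sub_le hb hcon
    have h3 : ‖1 - conj a * e‖ * ‖1 - conj b * e‖ ≤ ‖e - a‖ * ‖e - b‖ :=
      mul_le_mul h1 h2 (norm_nonneg _) (norm_nonneg _)
    have h4 : 0 < ‖e - a‖ := norm_pos_iff.2 (by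
      intro h; have : e = a := by linear_combination h
      rw [this] at hcon; linarith)
    have h5 : 0 < ‖e - b‖ := norm_pos_iff.2 (by
      intro h; have : e = b := by linear_combination h
      rw [this] at hcon; linarith)
    have h6 : 0 < ‖e - a‖ * ‖e - b‖ := mul_pos h4 h5
    have h7 : 0 ≤ ‖1 - conj a * e‖ * ‖1 - conj b * e‖ := by positivity
    nlinarith [norm_nonneg w]
  -- Wronskian identity
  have hW : ∀ z, (1 - conj w * w) * (K * (g x z * g y z)) =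
      g x z * (2 * (1 - conj x * x) * g e z + (1 - conj e * e) * g x z) := by
    intro z
    rw [← hN z]
    have i1 : (1 - conj w * w) *
        (g a z * g b z + ((1 - conj a * a) * z * g b z + (1 - conj b * b) * z * g a z)) =
        (3 * z ^ 2 - 2 * (a + b + w * (conj a * conj b)) * z + (a * b + w * (conj a + conj b))) *
          (1 - (conj a + conj b + conj w * (a * b)) * z +
            (conj a * conj b + conj w * (a + b)) * z ^ 2 - conj w * z ^ 3) -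
        (z ^ 3 - (a + b + w * (conj a * conj b)) * z ^ 2 + (a * b + w * (conj a + conj b)) * z - w) *
          (-(conj a + conj b + conj w * (a * b)) +
            2 * (conj a * conj b + conj w * (a + b)) * z - 3 * conj w * z ^ 2) := by
      unfold g; ring
    rw [i1, r1, r2, c1, c2, c3]
    conv_lhs => rw [r3]
    unfold g; ring
  have hW' : ∀ z, g x z ≠ 0 → (1 - conj w * w) * K * g y z =
      2 * (1 - conj x * x) * g e z + (1 - conj e * e) * g x z := by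
    intro z hz
    apply mul_left_cancel₀ hz
    rw [← hW z]; ring
  have g0 := hW' 0 (by simp [g, hx0])
  have g1 := hW' 1 (mul_ne_zero (sub_ne_circle hx (by simp)) (one_sub_ne hx (by simp)))
  have g2 := hW' (-1) (mul_ne_zero (sub_ne_circle hx (by simp)) (one_sub_ne hx (by simp)))
  set κ := (1 - conj w * w) * K with hκ
  set hh := 2 * (1 - conj x * x) * e + (1 - conj e * e) * x with hhh
  have k0 : κ * y = hh := by
    unfold g at g0; rw [hhh]; linear_combination -g0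
  have k1 : κ * (1 + conj y * y) =
      2 * (1 - conj x * x) * (1 + conj e * e) + (1 - conj e * e) * (1 + conj x * x) := by
    unfold g at g1 g2; linear_combination (g1 - g2) / 2
  have cm : ∀ t : ℂ, conj t * t = ((‖t‖ ^ 2 : ℝ) : ℂ) := by
    intro t; rw [mul_comm, Complex.mul_conj, Complex.normSq_eq_norm_sq]
  have k2 : ‖hh‖ * (1 + ‖y‖ ^ 2) =
      (2 * (1 - ‖x‖ ^ 2) * (1 + ‖e‖ ^ 2) + (1 - ‖e‖ ^ 2) * (1 + ‖x‖ ^ 2)) * ‖y‖ := by
    have t1 : hh * ((1 + ‖y‖ ^ 2 : ℝ) : ℂ) =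
        ((2 * (1 - ‖x‖ ^ 2) * (1 + ‖e‖ ^ 2) + (1 - ‖e‖ ^ 2) * (1 + ‖x‖ ^ 2) : ℝ) : ℂ) * y := by
      rw [cm, cm, cm] at k1
      push_cast at k1 ⊢
      linear_combination y * k1 - (1 + (‖y‖ : ℂ) ^ 2) * k0
    have t2 := congrArg (fun t : ℂ => ‖t‖) t1
    simp only [norm_mul, Complex.norm_real, Real.norm_eq_abs] at t2
    have p1 : 0 ≤ 1 - ‖x‖ ^ 2 := by nlinarith [norm_nonneg x]
    have p2 : 0 ≤ 1 - ‖e‖ ^ 2 := by nlinarith [norm_nonneg e]
    rw [abs_of_nonneg (by positivity), abs_of_nonneg (by positivity)] at t2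
    exact t2
  have k3 : 2 * (1 - ‖x‖ ^ 2) * ‖e‖ - (1 - ‖e‖ ^ 2) * ‖x‖ ≤ ‖hh‖ := by
    have p1 : 0 ≤ 1 - ‖x‖ ^ 2 := by nlinarith [norm_nonneg x]
    have p2 : 0 ≤ 1 - ‖e‖ ^ 2 := by nlinarith [norm_nonneg e]
    have t1 : hh = ((2 * (1 - ‖x‖ ^ 2) : ℝ) : ℂ) * e - -(((1 - ‖e‖ ^ 2 : ℝ) : ℂ) * x) := by
      rw [hhh, cm, cm]; push_cast; ring
    have t2 := norm_sub_norm_le (((2 * (1 - ‖x‖ ^ 2) : ℝ) : ℂ) * e) (-(((1 - ‖e‖ ^ 2 : ℝ) : ℂ) * x))
    rw [← t1, norm_neg, norm_mul, norm_mul, Complex.norm_real, Complex.norm_real,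
      Real.norm_of_nonneg (by positivity), Real.norm_of_nonneg p2] at t2
    exact t2
  have k4 := real_ineq ‖x‖ ‖e‖ ‖hh‖ ‖y‖ (norm_nonneg _) hx (norm_nonneg _) he1 hxy hy k2 k3
  have k5 : a * b * (1 - conj w * w) = x * hh := by
    rw [hhh]
    linear_combination r2 - w * c1 - (2 * conj x + conj e) * r3
  have hwn : ‖w‖ = ‖x‖ ^ 2 * ‖e‖ := by rw [r3]; simp
  have k6 : ‖a‖ * ‖b‖ * (1 - ‖w‖ ^ 2) = ‖x‖ * ‖hh‖ := by
    have t2 := congrArg (fun t : ℂ => ‖t‖) k5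
    rw [one_sub_conj_mul] at t2
    simp only [norm_mul, Complex.norm_real] at t2
    rwa [Real.norm_of_nonneg (by nlinarith [norm_nonneg w])] at t2
  have k7 : ‖x‖ * ‖e‖ ≤ ‖a‖ * ‖b‖ := by
    have p : 0 < 1 - ‖w‖ ^ 2 := by nlinarith [norm_nonneg w]
    apply le_of_mul_le_mul_right _ p
    rw [k6, hwn]
    have := mul_le_mul_of_nonneg_left k4 (norm_nonneg x)
    nlinarith
  have k8 : (x - a) * (x - b) = x * e * D := by
    apply mul_left_cancel₀ hx0
    rw [← hwD]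
    linear_combination D * r3
  rw [k8, norm_mul, norm_mul]
  exact mul_le_mul_of_nonneg_right k7 (norm_nonneg _)

lemma deg3 (τ : Fin 2 → ℂ) (hτ : ∀ k, τ k ≠ 0 ∧ ‖τ k‖ < 1) :
    ∃ ζ : ℂ, ‖ζ‖ < 1 ∧ N τ ζ = 0 ∧ ‖Q τ ζ‖ ≤ (∏ k, ‖τ k‖) * ‖Qs τ ζ‖ := by
  obtain ⟨K, ζ, hζ, hK⟩ := N_factor τ hτ
  have e0 : (univ : Finset (Fin 2)).erase 0 = {1} := by decide
  have e1 : (univ : Finset (Fin 2)).erase 1 = {0} := by decide
  have hN : ∀ z, g (τ 0) z * g (τ 1) z + ((1 - conj (τ 0) * τ 0) * z * g (τ 1) z +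
      (1 - conj (τ 1) * τ 1) * z * g (τ 0) z) = K * (g (ζ 0) z * g (ζ 1) z) := by
    intro z
    have := hK z
    simp only [N, Fin.prod_univ_two, Fin.sum_univ_two, e0, e1, prod_singleton] at this
    exact this
  simp only [Q, Qs, Fin.prod_univ_two]
  rcases le_total ‖ζ 0‖ ‖ζ 1‖ with h | h
  · refine ⟨ζ 0, hζ 0, ?_, deg3_core _ _ K _ (ζ 1) (hτ 0).1 (hτ 1).1 (hτ 0).2 (hτ 1).2 (hζ 0)
      (hζ 1) h hN⟩
    rw [hK]; simp [g]
  · refine ⟨ζ 1, hζ 1, ?_, deg3_core _ _ K _ (ζ 0) (hτ 0).1 (hτ 1).1 (hτ 0).2 (hτ 1).2 (hζ 1)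
      (hζ 0) h (fun z => by rw [hN z]; ring)⟩
    rw [hK]; simp [g]

end

end Pool.Agent.P.MP_c3cac0_an
end

-- part Pool.Agent.P.MP_c3cac0_an.Clark
section

set_option autoImplicit false

namespace Pool.Agent.P.MP_c3cac0_an

open Finset Polynomial ComplexConjugate

noncomputable section

lemma exists_roots (p : ℂ[X]) (m : ℕ) (h : p.natDegree = m) :
    ∃ v : Fin m → ℂ, ∀ z, p.eval z = p.leadingCoeff * ∏ j, (z - v j) := by
  have hc : p.roots.card = p.natDegree := IsAlgClosed.card_roots_eq_natDegree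
  have e := C_leadingCoeff_mul_prod_multiset_X_sub_C hc
  obtain ⟨l, hl⟩ : ∃ l : List ℂ, (l : Multiset ℂ) = p.roots := ⟨p.roots.toList, by simp⟩
  have hlen : l.length = m := by rw [← h, ← hc, ← hl]; simp
  subst hlen
  refine ⟨l.get, fun z => ?_⟩
  conv_lhs => rw [← e]
  rw [eval_mul, eval_C, ← hl, eval_multiset_prod]
  congr 1
  simp only [Multiset.map_coe, Multiset.prod_coe, List.map_map]
  rw [← List.prod_ofFn]
  congr 1
  apply List.ext_get <;> simp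

/-- boundary derivative of the Blaschke product with zeros `τ` -/
def S {m : ℕ} (τ : Fin m → ℂ) (v : ℂ) : ℝ := ∑ k, (1 - ‖τ k‖ ^ 2) / ‖v - τ k‖ ^ 2

lemma S_pos {m : ℕ} (hm : 1 ≤ m) (τ : Fin m → ℂ) (hτ : ∀ k, ‖τ k‖ < 1) {v : ℂ} (hv : ‖v‖ = 1) :
    0 < S τ v := by
  have hne : (univ : Finset (Fin m)).Nonempty := ⟨⟨0, hm⟩, mem_univ _⟩
  refine sum_pos (fun k _ => div_pos (by nlinarith [hτ k, norm_nonneg (τ k)]) ?_) hne
  exact pow_pos (norm_pos_iff.2 (sub_ne_circle (hτ k) hv)) 2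

lemma Nr_eq {m : ℕ} (τ : Fin m → ℂ) (hτ : ∀ k, ‖τ k‖ < 1) {v : ℂ} (hv : ‖v‖ = 1) :
    Nr τ v = (∏ k, ‖v - τ k‖ ^ 2) * (1 + S τ v) := by
  unfold Nr S
  rw [mul_add, mul_one, mul_sum]
  congr 1
  refine sum_congr rfl fun k _ => ?_
  rw [← mul_prod_erase univ (fun l => ‖v - τ l‖ ^ 2) (mem_univ k)]
  have : ‖v - τ k‖ ≠ 0 := norm_ne_zero_iff.2 (sub_ne_circle (hτ k) hv)
  field_simp

lemma prod_lt_one {m : ℕ} (hm : 1 ≤ m) (τ : Fin m → ℂ) (hτ : ∀ k, ‖τ k‖ < 1) :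
    ∏ k, ‖τ k‖ < 1 := by
  obtain ⟨n, rfl⟩ : ∃ n, m = n + 1 := ⟨m - 1, by omega⟩
  rw [Fin.prod_univ_succ]
  have h1 : ∏ i : Fin n, ‖τ i.succ‖ ≤ 1 := prod_le_one (fun _ _ => norm_nonneg _) fun i _ => (hτ _).le
  have h2 : 0 ≤ ∏ i : Fin n, ‖τ i.succ‖ := prod_nonneg fun _ _ => norm_nonneg _
  nlinarith [hτ 0, norm_nonneg (τ 0)]

lemma norm_Q_lt {m : ℕ} (hm : 1 ≤ m) (τ : Fin m → ℂ) (hτ : ∀ k, ‖τ k‖ < 1) {z : ℂ}
    (hz : ‖z‖ < 1) : ‖Q τ z‖ < ‖Qs τ z‖ := by
  have hne : ∀ k, 1 - conj (τ k) * z ≠ 0 := fun k => one_sub_ne (hτ k) hz.le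
  have hQ : Qs τ z ≠ 0 := prod_ne_zero_iff.2 fun k _ => hne k
  rw [← div_lt_one (norm_pos_iff.2 hQ), ← norm_div, Q, Qs, ← prod_div_distrib, norm_prod]
  apply prod_lt_one hm (fun k => (z - τ k) / (1 - conj (τ k) * z))
  intro k
  rw [norm_div, div_lt_one (norm_pos_iff.2 (hne k))]
  exact norm_sub_lt (hτ k) hz

lemma norm_one_sub_lt {a z : ℂ} (ha : ‖a‖ < 1) (hz : 1 < ‖z‖) : ‖1 - conj a * z‖ < ‖z - a‖ := by
  have e : ‖z - a‖ ^ 2 - ‖1 - conj a * z‖ ^ 2 = (‖z‖ ^ 2 - 1) * (1 - ‖a‖ ^ 2) := by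
    simp only [← Complex.normSq_eq_norm_sq, Complex.normSq_apply]
    simp
    ring
  have : 0 < (‖z‖ ^ 2 - 1) * (1 - ‖a‖ ^ 2) :=
    mul_pos (by nlinarith) (by nlinarith [norm_nonneg a])
  exact abs_lt_of_sq_lt_sq' (by linarith) (norm_nonneg _) |>.2

lemma norm_Qs_lt {m : ℕ} (hm : 1 ≤ m) (τ : Fin m → ℂ) (hτ : ∀ k, ‖τ k‖ < 1) {z : ℂ}
    (hz : 1 < ‖z‖) : ‖Qs τ z‖ < ‖Q τ z‖ := by
  have hne : ∀ k, z - τ k ≠ 0 := fun k h => by
    have : z = τ k := by linear_combination h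
    have := hτ k
    rw [← ‹z = τ k›] at this; linarith
  have hQ : Q τ z ≠ 0 := prod_ne_zero_iff.2 fun k _ => hne k
  rw [← div_lt_one (norm_pos_iff.2 hQ), ← norm_div, Q, Qs, ← prod_div_distrib, norm_prod]
  apply prod_lt_one hm (fun k => (1 - conj (τ k) * z) / (z - τ k))
  intro k
  rw [norm_div, div_lt_one (norm_pos_iff.2 (hne k))]
  exact norm_one_sub_lt (hτ k) hz

lemma clark {m : ℕ} (hm : 1 ≤ m) (τ : Fin m → ℂ) (hτ : ∀ k, τ k ≠ 0 ∧ ‖τ k‖ < 1)
    (α : ℂ) (hα : ‖α‖ = 1) :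
    ∃ (L : ℂ) (v : Fin m → ℂ), L ≠ 0 ∧ (∀ j, ‖v j‖ = 1) ∧
      (∀ z, Q τ z - α * Qs τ z = L * ∏ j, (z - v j)) ∧
      (∑ j, 1 / S τ (v j)) * ‖α - ∏ k, (-τ k)‖ ^ 2 = 1 - (∏ k, ‖τ k‖) ^ 2 := by
  have hτ1 : ∀ k, ‖τ k‖ < 1 := fun k => (hτ k).2
  set a : ℂ := ∏ k, (-τ k) with ha
  have han : ‖a‖ = ∏ k, ‖τ k‖ := by simp [ha]
  have ha1 : ‖a‖ < 1 := han ▸ prod_lt_one hm τ hτ1
  set A1 : ℂ[X] := ∏ k, (X - C (τ k)) with hA1
  set A2 : ℂ[X] := ∏ k, (X - C (conj (τ k))⁻¹) with hA2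
  have m1 : A1.Monic := monic_prod_X_sub_C _ _
  have m2 : A2.Monic := monic_prod_X_sub_C _ _
  have d1 : A1.natDegree = m := by simp [hA1]
  have d2 : A2.natDegree = m := by simp [hA2]
  have e1 : ∀ z, A1.eval z = Q τ z := by intro z; simp [hA1, Q, eval_prod]
  have e2 : ∀ z, conj a * A2.eval z = Qs τ z := by
    intro z
    simp only [hA2, ha, Qs, eval_prod, map_prod, eval_sub, eval_X, eval_C, ← prod_mul_distrib]
    refine prod_congr rfl fun k _ => ?_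
    have : conj (τ k) ≠ 0 := by simpa using (hτ k).1
    rw [map_neg]; field_simp; ring
  set L : ℂ := 1 - conj a * α with hL
  have hL0 : L ≠ 0 := one_sub_ne ha1 hα.le
  set P : ℂ[X] := A1 - C (conj a * α) * A2 with hP
  have hPc : P.coeff m = L := by
    rw [hP, coeff_sub, coeff_C_mul]
    have t1 : A1.coeff m = 1 := by rw [← d1]; exact m1
    have t2 : A2.coeff m = 1 := by rw [← d2]; exact m2
    rw [t1, t2, mul_one]
  have hPd : P.natDegree = m := by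
    apply le_antisymm
    · refine (natDegree_sub_le _ _).trans (max_le d1.le ?_)
      exact (natDegree_C_mul_le _ _).trans d2.le
    · exact le_natDegree_of_ne_zero (hPc ▸ hL0)
  obtain ⟨v, hv⟩ := exists_roots P m hPd
  have hlc : P.leadingCoeff = L := by rw [leadingCoeff, hPd, hPc]
  have hfac : ∀ z, Q τ z - α * Qs τ z = L * ∏ j, (z - v j) := by
    intro z
    rw [← hlc, ← hv z, hP, eval_sub, eval_mul, eval_C, e1, ← e2]; ring
  have hroot : ∀ j, Q τ (v j) = α * Qs τ (v j) := by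
    intro j
    have := hfac (v j)
    rw [prod_eq_zero (mem_univ j) (sub_self _), mul_zero] at this
    linear_combination this
  have hv1 : ∀ j, ‖v j‖ = 1 := by
    intro j
    have hn : ‖Q τ (v j)‖ = ‖Qs τ (v j)‖ := by rw [hroot, norm_mul, hα, one_mul]
    rcases lt_trichotomy ‖v j‖ 1 with h | h | h
    · exact absurd hn (norm_Q_lt hm τ hτ1 h).ne
    · exact h
    · exact absurd hn (norm_Qs_lt hm τ hτ1 h).ne'
  have hv0 : ∀ j, v j ≠ 0 := fun j h => by simpa [h] using hv1 j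
  have hQv : ∀ j, Q τ (v j) ≠ 0 := fun j =>
    prod_ne_zero_iff.2 fun k _ => sub_ne_circle (hτ1 k) (hv1 j)
  -- derivative at the roots
  have hder : ∀ j, v j * (L * ∏ l ∈ univ.erase j, (v j - v l)) = Q τ (v j) * (S τ (v j) : ℂ) := by
    intro j
    have t1 : HasDerivAt (fun z => L * ∏ l, (z - v l))
        (L * ∑ i, (∏ l ∈ univ.erase i, (v j - v l)) • (1 : ℂ)) (v j) :=
      (HasDerivAt.fun_finsetProd (u := univ) (f := fun l z => z - v l)
        (fun l _ => (hasDerivAt_id (v j)).sub_const (v l))).const_mul L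
    have t2 : HasDerivAt (fun z => Q τ z)
        (∑ i, (∏ l ∈ univ.erase i, (v j - τ l)) • (1 : ℂ)) (v j) :=
      HasDerivAt.fun_finsetProd (u := univ) (f := fun l z => z - τ l)
        (fun l _ => (hasDerivAt_id (v j)).sub_const (τ l))
    have t3 : HasDerivAt (fun z => Qs τ z)
        (∑ i, (∏ l ∈ univ.erase i, (1 - conj (τ l) * v j)) • (-(conj (τ i) * 1))) (v j) :=
      HasDerivAt.fun_finsetProd (u := univ) (f := fun l z => 1 - conj (τ l) * z)
        (fun l _ => ((hasDerivAt_id (v j)).const_mul (conj (τ l))).const_sub 1)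
    have t4 := t2.sub (t3.const_mul α)
    have t5 : (fun z => L * ∏ l, (z - v l)) = (fun z => Q τ z) - fun z => α * Qs τ z := by
      funext z; exact (hfac z).symm
    rw [t5] at t1
    have t6 := t1.unique t4
    have t7 : ∑ i, (∏ l ∈ univ.erase i, (v j - v l)) • (1 : ℂ) = ∏ l ∈ univ.erase j, (v j - v l) := by
      rw [sum_eq_single j]
      · simp
      · intro i _ hi
        rw [prod_eq_zero (mem_erase.2 ⟨hi.symm, mem_univ j⟩) (sub_self _)]; simp
      · simp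
    rw [t7] at t6
    rw [t6, S]
    push_cast
    rw [mul_sum, ← sum_sub_distrib, mul_sum, mul_sum]
    refine sum_congr rfl fun k _ => ?_
    have u1 : Q τ (v j) = (v j - τ k) * ∏ l ∈ univ.erase k, (v j - τ l) :=
      (mul_prod_erase univ (fun l => v j - τ l) (mem_univ k)).symm
    have u2 : Qs τ (v j) = (1 - conj (τ k) * v j) * ∏ l ∈ univ.erase k, (1 - conj (τ l) * v j) :=
      (mul_prod_erase univ (fun l => 1 - conj (τ l) * v j) (mem_univ k)).symm
    have u3 := hroot j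
    have u4 := g_circle (τ k) (hv1 j)
    have u5 := one_sub_conj_mul (τ k)
    have u6 : ((‖v j - τ k‖ : ℂ)) ^ 2 ≠ 0 := by
      exact_mod_cast pow_ne_zero 2 (norm_ne_zero_iff.2 (sub_ne_circle (hτ1 k) (hv1 j)))
    have u7 := one_sub_ne (hτ1 k) (hv1 j).le
    have u8 := sub_ne_circle (hτ1 k) (hv1 j)
    push_cast at u4 u5
    unfold g at u4
    rw [u2] at u3
    rw [u1] at u3 ⊢
    simp only [smul_eq_mul]
    generalize (∏ l ∈ univ.erase k, (v j - τ l)) = A at u3 ⊢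
    generalize (∏ l ∈ univ.erase k, (1 - conj (τ l) * v j)) = B at u3 ⊢
    rw [← u5, ← mul_div_assoc, eq_div_iff u6]
    apply mul_left_cancel₀ u7
    linear_combination (-(v j) * conj (τ k) * (‖v j - τ k‖ : ℂ) ^ 2) * u3 -
      (A * (1 - conj (τ k) * τ k)) * u4
  have hS : ∀ j, (S τ (v j) : ℂ) ≠ 0 := fun j => by
    exact_mod_cast (S_pos hm τ hτ1 (hv1 j)).ne'
  have hpe : ∀ j, ∏ l ∈ univ.erase j, (v j - v l) ≠ 0 := by
    intro j h
    have := hder j
    rw [h, mul_zero, mul_zero] at this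
    exact mul_ne_zero (hQv j) (hS j) this.symm
  have hinj : Set.InjOn v (univ : Finset (Fin m)) := by
    intro i _ j _ hij
    by_contra hne
    apply hpe i
    exact prod_eq_zero (mem_erase.2 ⟨fun h => hne h.symm, mem_univ j⟩) (by rw [hij, sub_self])
  refine ⟨L, v, hL0, hv1, hfac, ?_⟩
  set F : ℂ[X] := C (conj a) * (A2 - A1) with hF
  have hFd : F.degree < (univ : Finset (Fin m)).card := by
    have t1 : (A2 - A1).degree < A2.degree :=
      degree_sub_lt_left (by rw [degree_eq_natDegree m1.ne_zero, degree_eq_natDegree m2.ne_zero, d1, d2])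
        m2.ne_zero (by rw [m1, m2])
    rw [degree_eq_natDegree m2.ne_zero, d2] at t1
    rw [card_univ, Fintype.card_fin, hF, ← smul_eq_C_mul]
    exact (degree_smul_le _ _).trans_lt t1
  have hFe : ∀ z, F.eval z = Qs τ z - conj a * Q τ z := by
    intro z
    rw [hF, eval_mul, eval_C, eval_sub, e1, ← e2]; ring
  have key := Lagrange.eval_interpolate_not_at_node (s := univ) (v := v)
    (fun j => F.eval (v j)) (x := 0) (fun j _ => (hv0 j).symm)
  rw [← Lagrange.eq_interpolate hinj hFd, Lagrange.eval_nodal] at key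
  have hα0 : α ≠ 0 := by rintro rfl; simp at hα
  have hterm : ∀ j, Lagrange.nodalWeight univ v j * (0 - v j)⁻¹ * F.eval (v j) =
      -(L ^ 2 / α) * (1 / (S τ (v j) : ℂ)) := by
    intro j
    rw [Lagrange.nodalWeight, prod_inv_distrib, hFe]
    have t1 := hder j
    have t2 := hroot j
    have t3 := hpe j
    have t4 := hS j
    have t5 := hv0 j
    generalize (∏ l ∈ univ.erase j, (v j - v l)) = A at t1 t3 ⊢
    rw [zero_sub]
    field_simp
    rw [hL] at t1 ⊢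
    linear_combination (1 - conj a * α) * t1 + (S τ (v j) : ℂ) * t2
  rw [sum_congr rfl fun j _ => hterm j, ← mul_sum, hFe] at key
  have q0 : Q τ 0 = a := by simp [Q, ha]
  have qs0 : Qs τ 0 = 1 := by simp [Qs]
  have f0 := hfac 0
  rw [q0, qs0] at key f0
  have hαα : conj α * α = 1 := by
    rw [mul_comm, Complex.mul_conj, Complex.normSq_eq_norm_sq, hα]; simp
  have n1 : ((‖α - a‖ ^ 2 : ℝ) : ℂ) = (α - a) * (conj α - conj a) := by
    rw [← map_sub, Complex.mul_conj, Complex.normSq_eq_norm_sq]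
  rw [← han]
  apply Complex.ofReal_injective
  rw [← one_sub_conj_mul, Complex.ofReal_mul, n1, key]
  push_cast
  generalize (∑ j, 1 / (S τ (v j) : ℂ)) = T
  generalize (∏ j, (0 - v j)) = W at f0
  have : L ^ 2 / α = L ^ 2 * conj α := by
    field_simp
    linear_combination -hαα
  rw [this]
  rw [hL] at f0 ⊢
  linear_combination (-T * (1 - conj a * α) * conj α) * f0 + (T * (α - a) * conj a) * hαα

end

end Pool.Agent.P.MP_c3cac0_an
end

-- part Pool.Agent.P.MP_c3cac0_an.Crit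
section

set_option autoImplicit false

namespace Pool.Agent.P.MP_c3cac0_an

open Finset Polynomial ComplexConjugate

noncomputable section

lemma prod_one_add_ge {m : ℕ} (hm : 1 ≤ m) (s : Fin m → ℝ) (hs : ∀ j, 0 < s j) (c : ℝ)
    (hc : 0 < c) (h : (∑ j, 1 / s j) * c = m) : (1 + c) ^ m ≤ ∏ j, (1 + s j) := by
  have h1 : ∀ j, Real.log (1 + c) + (1 - c / s j) * (c / (1 + c)) ≤ Real.log (1 + s j) := by
    intro j
    have hj := hs j
    have t1 : 1 - ((1 + s j) / (1 + c))⁻¹ ≤ Real.log ((1 + s j) / (1 + c)) :=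
      Real.one_sub_inv_le_log_of_pos (by positivity)
    rw [Real.log_div (by positivity) (by positivity)] at t1
    have t2 : 1 - ((1 + s j) / (1 + c))⁻¹ - (1 - c / s j) * (c / (1 + c)) =
        (s j - c) ^ 2 / ((1 + c) * s j * (1 + s j)) := by
      field_simp
      ring
    have t3 : 0 ≤ (s j - c) ^ 2 / ((1 + c) * s j * (1 + s j)) := by positivity
    linarith
  have h2 := sum_le_sum fun j (_ : j ∈ (univ : Finset (Fin m))) => h1 j
  rw [sum_add_distrib, ← Real.log_prod (f := fun j => 1 + s j)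
    (fun j _ => by have := hs j; positivity)] at h2
  have h3 : ∑ j, (1 - c / s j) * (c / (1 + c)) = 0 := by
    have : ∀ j, (1 - c / s j) * (c / (1 + c)) = (1 - 1 / s j * c) * (c / (1 + c)) := by
      intro j; field_simp
    simp only [this]
    rw [← sum_mul, sum_sub_distrib, ← sum_mul, h]; simp
  rw [h3, add_zero, sum_const, card_univ, Fintype.card_fin, nsmul_eq_mul, ← Real.log_pow] at h2
  exact (Real.log_le_log_iff (by positivity)
    (prod_pos fun j _ => by have := hs j; positivity)).1 h2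

lemma norm_circle (a : ℂ) {z : ℂ} (hz : ‖z‖ = 1) : ‖1 - conj a * z‖ = ‖z - a‖ := by
  have h1 : z * conj z = 1 := by
    rw [Complex.mul_conj, Complex.normSq_eq_norm_sq, hz]; simp
  have : 1 - conj a * z = z * conj (z - a) := by rw [map_sub]; linear_combination -h1
  rw [this, norm_mul, hz, one_mul, Complex.norm_conj]

lemma exists_alpha {m : ℕ} (φ : Fin m → ℂ) (hφ : ∀ i, ‖φ i‖ < 1) (b : ℂ) :
    ∃ α : ℂ, ‖α‖ = 1 ∧ ∏ i, ‖α - φ i‖ ≤ ‖α - b‖ ^ m := by
  set f : ℂ → ℂ := fun w => (1 - conj b * w) ^ m / ∏ i, (1 - conj (φ i) * w) with hf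
  have hd : DifferentiableOn ℂ f (Metric.closedBall 0 1) := by
    apply DifferentiableOn.div
    · fun_prop
    · fun_prop
    · intro w hw
      exact prod_ne_zero_iff.2 fun i _ => one_sub_ne (hφ i) (by simpa using hw)
  have hd' : DiffContOnCl ℂ f (Metric.ball 0 1) := by
    apply DifferentiableOn.diffContOnCl
    rwa [closure_ball _ one_ne_zero]
  obtain ⟨α, hα, hmax⟩ := Complex.exists_mem_frontier_isMaxOn_norm Metric.isBounded_ball
    ⟨0, by simp⟩ hd'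
  rw [frontier_ball _ one_ne_zero] at hα
  have hα1 : ‖α‖ = 1 := by simpa using hα
  refine ⟨α, hα1, ?_⟩
  have h0 : ‖f 0‖ ≤ ‖f α‖ := hmax (subset_closure (by simp))
  have h1 : ‖f 0‖ = 1 := by simp [hf]
  rw [h1, hf] at h0
  simp only [norm_div, norm_pow, norm_prod, norm_circle _ hα1] at h0
  rwa [le_div_iff₀ (prod_pos fun i _ => norm_pos_iff.2 (sub_ne_circle (hφ i) hα1)), one_mul] at h0

lemma N_at_zero {m : ℕ} (τ : Fin m → ℂ) (k : Fin m) :
    ‖N τ (τ k)‖ = ‖τ k‖ * ‖Qs τ (τ k)‖ * ∏ l ∈ univ.erase k, ‖τ k - τ l‖ := by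
  have g0 : g (τ k) (τ k) = 0 := by simp [g]
  unfold N
  rw [prod_eq_zero (mem_univ k) g0, zero_add, sum_eq_single k]
  · rw [Qs, ← mul_prod_erase univ (fun l => 1 - conj (τ l) * τ k) (mem_univ k)]
    simp only [g, norm_mul, norm_prod, prod_mul_distrib]
    ring
  · intro i _ hi
    rw [prod_eq_zero (mem_erase.2 ⟨hi.symm, mem_univ k⟩) g0, mul_zero]
  · simp

lemma criterion {m : ℕ} (hm : 1 ≤ m) (τ : Fin m → ℂ) (hτ : ∀ k, τ k ≠ 0 ∧ ‖τ k‖ < 1)
    (K : ℂ) (ζ : Fin m → ℂ) (hζ : ∀ i, ‖ζ i‖ < 1) (hK : ∀ z, N τ z = K * ∏ i, g (ζ i) z) :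
    (∏ i, ‖Q τ (ζ i)‖) * ((∏ k, ‖Qs τ (τ k)‖) * (m / (1 - (∏ k, ‖τ k‖) ^ 2) + 1) ^ m) ≤
      (∏ i, ‖Qs τ (ζ i)‖) * ((∏ k, ‖τ k‖) * ∏ k, ∏ l ∈ univ.erase k, ‖τ k - τ l‖) := by
  have hτ1 : ∀ k, ‖τ k‖ < 1 := fun k => (hτ k).2
  set A := ∏ k, ‖τ k‖ with hA
  have hA1 : A < 1 := prod_lt_one hm τ hτ1
  have hA0 : 0 ≤ A := prod_nonneg fun _ _ => norm_nonneg _
  have hA2 : 0 < 1 - A ^ 2 := by nlinarith
  set M : ℝ := m / (1 - A ^ 2) with hM
  have hm0 : (0 : ℝ) < m := by exact_mod_cast hm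
  have hM0 : 0 < M := div_pos hm0 hA2
  set a : ℂ := ∏ k, (-τ k) with ha
  have han : ‖a‖ = A := by simp [ha, hA]
  have hQs : ∀ z, ‖z‖ ≤ 1 → 0 < ‖Qs τ z‖ := fun z hz =>
    norm_pos_iff.2 (prod_ne_zero_iff.2 fun k _ => one_sub_ne (hτ1 k) hz)
  set R := ∏ k, ‖Qs τ (τ k)‖ with hR
  have hR0 : 0 < R := prod_pos fun k _ => hQs _ (hτ1 k).le
  obtain ⟨α, hα, hαle⟩ := exists_alpha (fun i => Q τ (ζ i) / Qs τ (ζ i))
    (fun i => by
      rw [norm_div, div_lt_one (hQs _ (hζ i).le)]; exact norm_Q_lt hm τ hτ1 (hζ i))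
    (((M / (M + 1) : ℝ) : ℂ) * a)
  obtain ⟨L, v, hL, hv, hfac, hsum⟩ := clark hm τ hτ α hα
  have hαa : 0 < ‖α - a‖ := norm_pos_iff.2 (sub_ne_circle (han ▸ hA1) hα)
  have s1 : (1 + M * ‖α - a‖ ^ 2) ^ m ≤ ∏ j, (1 + S τ (v j)) := by
    apply prod_one_add_ge hm _ (fun j => S_pos hm τ hτ1 (hv j)) _ (by positivity)
    rw [mul_left_comm, hsum, hM, ← hA]; field_simp
  have s2 : (M + 1) * ‖α - ((M / (M + 1) : ℝ) : ℂ) * a‖ ^ 2 ≤ 1 + M * ‖α - a‖ ^ 2 := by
    have t1 : α.re * α.re + α.im * α.im = 1 := by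
      rw [← Complex.normSq_apply, Complex.normSq_eq_norm_sq, hα]; simp
    simp only [← Complex.normSq_eq_norm_sq, Complex.normSq_apply, Complex.sub_re, Complex.sub_im,
      Complex.mul_re, Complex.mul_im, Complex.ofReal_re, Complex.ofReal_im, zero_mul, sub_zero,
      add_zero]
    set c := M / (M + 1) with hc
    have t2 : c * (M + 1) = M := by rw [hc]; field_simp
    have t3 : c ≤ 1 := by rw [hc, div_le_one (by positivity)]; linarith
    have t4 : 0 ≤ M * (1 - c) * (a.re * a.re + a.im * a.im) :=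
      mul_nonneg (mul_nonneg hM0.le (by linarith)) (by nlinarith)
    have t5 : (M + 1) * ((α.re - c * a.re) * (α.re - c * a.re) + (α.im - c * a.im) * (α.im - c * a.im))
        = (M + 1) - 2 * M * (α.re * a.re + α.im * a.im) + M * c * (a.re * a.re + a.im * a.im) := by
      linear_combination (M + 1) * t1 +
        (-2 * (α.re * a.re + α.im * a.im) + c * (a.re * a.re + a.im * a.im)) * t2
    rw [t5]
    nlinarith
  set β := ‖α - ((M / (M + 1) : ℝ) : ℂ) * a‖ with hβ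
  have hβ0 : 0 < β := by
    apply norm_pos_iff.2 (sub_ne_circle _ hα)
    rw [norm_mul, han, Complex.norm_real, Real.norm_of_nonneg (by positivity)]
    have : M / (M + 1) ≤ 1 := by rw [div_le_one (by positivity)]; linarith
    nlinarith
  have s3 : ((M + 1) * β ^ 2) ^ m ≤ ∏ j, (1 + S τ (v j)) :=
    (pow_le_pow_left₀ (by positivity) s2 m).trans s1
  -- product identity on the Clark points
  have p1 : ∀ z, ‖L‖ * ∏ j, ‖v j - z‖ = ‖Q τ z - α * Qs τ z‖ := by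
    intro z
    rw [hfac, norm_mul, norm_prod]
    congr 1
    exact prod_congr rfl fun j _ => norm_sub_rev _ _
  have p2 : ∀ j, (∏ k, ‖v j - τ k‖ ^ 2) * (1 + S τ (v j)) = ‖K‖ * ∏ i, ‖v j - ζ i‖ ^ 2 := by
    intro j
    rw [← Nr_eq τ hτ1 (hv j)]
    have t1 := congrArg (fun t : ℂ => ‖t‖) (N_circle τ (hv j))
    simp only [hK, norm_mul, norm_pow, hv j, one_pow, one_mul, Complex.norm_real, norm_prod,
      g_circle _ (hv j), Real.norm_of_nonneg (Nr_pos τ hτ1 (hv j)).le, norm_norm] at t1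
    exact t1.symm
  have p3 : R ^ 2 * ∏ j, (1 + S τ (v j)) = ‖K‖ ^ m * (∏ i, ‖Q τ (ζ i) - α * Qs τ (ζ i)‖) ^ 2 := by
    have t1 := prod_congr (s₁ := univ) rfl fun j (_ : j ∈ univ) => p2 j
    rw [prod_mul_distrib, prod_mul_distrib, prod_const, card_univ, Fintype.card_fin,
      prod_comm, prod_comm (f := fun j i => ‖v j - ζ i‖ ^ 2)] at t1
    have t2 : R = ‖L‖ ^ m * ∏ k, ∏ j, ‖v j - τ k‖ := by
      rw [hR]
      have : ∀ k, ‖Qs τ (τ k)‖ = ‖L‖ * ∏ j, ‖v j - τ k‖ := by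
        intro k
        rw [p1, Q, prod_eq_zero (mem_univ k) (sub_self _), zero_sub, norm_neg, norm_mul, hα, one_mul]
      simp only [this, prod_mul_distrib, prod_const, card_univ, Fintype.card_fin]
    have t3 : ∏ i, ‖Q τ (ζ i) - α * Qs τ (ζ i)‖ = ‖L‖ ^ m * ∏ i, ∏ j, ‖v j - ζ i‖ := by
      simp only [← p1, prod_mul_distrib, prod_const, card_univ, Fintype.card_fin]
    simp only [prod_pow] at t1
    rw [t2, t3]
    linear_combination (‖L‖ ^ m) ^ 2 * t1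
  have p4 : ∏ i, ‖Q τ (ζ i) - α * Qs τ (ζ i)‖ ≤ (∏ i, ‖Qs τ (ζ i)‖) * β ^ m := by
    refine le_trans (le_of_eq ?_)
      (mul_le_mul_of_nonneg_left hαle (prod_nonneg fun _ _ => norm_nonneg _))
    rw [← prod_mul_distrib]
    refine prod_congr rfl fun i _ => ?_
    rw [← norm_mul, ← norm_neg]
    congr 1
    have := norm_pos_iff.1 (hQs _ (hζ i).le)
    field_simp
    ring
  have p5 : R ^ 2 * (M + 1) ^ m ≤ ‖K‖ ^ m * (∏ i, ‖Qs τ (ζ i)‖) ^ 2 := by
    have t1 : 0 < (β ^ m) ^ 2 := by positivity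
    apply le_of_mul_le_mul_right _ t1
    have t2 := pow_le_pow_left₀ (prod_nonneg fun _ _ => norm_nonneg _) p4 2
    calc R ^ 2 * (M + 1) ^ m * (β ^ m) ^ 2 = R ^ 2 * ((M + 1) * β ^ 2) ^ m := by
          rw [mul_pow]; ring
      _ ≤ R ^ 2 * ∏ j, (1 + S τ (v j)) := mul_le_mul_of_nonneg_left s3 (by positivity)
      _ ≤ ‖K‖ ^ m * ((∏ i, ‖Qs τ (ζ i)‖) * β ^ m) ^ 2 := by
        rw [p3]; exact mul_le_mul_of_nonneg_left t2 (by positivity)
      _ = _ := by ring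
  have p6 : ‖K‖ ^ m * ((∏ i, ‖Q τ (ζ i)‖) * ∏ i, ‖Qs τ (ζ i)‖) =
      A * R * ∏ k, ∏ l ∈ univ.erase k, ‖τ k - τ l‖ := by
    have t1 := prod_congr (s₁ := univ) rfl fun k (_ : k ∈ univ) => N_at_zero τ k
    rw [prod_mul_distrib, prod_mul_distrib] at t1
    rw [← t1]
    simp only [hK, norm_mul, norm_prod, g, prod_mul_distrib, prod_const, card_univ,
      Fintype.card_fin, Q, Qs]
    rw [prod_comm (f := fun k i => ‖τ k - ζ i‖), prod_comm (f := fun k i => ‖1 - conj (ζ i) * τ k‖)]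
    congr 2
    · exact prod_congr rfl fun i _ => prod_congr rfl fun k _ => norm_sub_rev _ _
    · refine prod_congr rfl fun i _ => prod_congr rfl fun k _ => ?_
      rw [← Complex.norm_conj]; simp [mul_comm]
  apply le_of_mul_le_mul_right _ hR0
  have hX : 0 ≤ ∏ i, ‖Q τ (ζ i)‖ := prod_nonneg fun _ _ => norm_nonneg _
  calc _ = (∏ i, ‖Q τ (ζ i)‖) * (R ^ 2 * (M + 1) ^ m) := by ring
    _ ≤ (∏ i, ‖Q τ (ζ i)‖) * (‖K‖ ^ m * (∏ i, ‖Qs τ (ζ i)‖) ^ 2) :=
      mul_le_mul_of_nonneg_left p5 hX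
    _ = (∏ i, ‖Qs τ (ζ i)‖) * (‖K‖ ^ m * ((∏ i, ‖Q τ (ζ i)‖) * ∏ i, ‖Qs τ (ζ i)‖)) := by ring
    _ = _ := by rw [p6]; ring

end

end Pool.Agent.P.MP_c3cac0_an
end

-- part Pool.Agent.P.MP_c3cac0_an.Energy
section

set_option autoImplicit false

namespace Pool.Agent.P.MP_c3cac0_an

open Finset Polynomial ComplexConjugate Real

noncomputable section

def G (s x : ℝ) : ℝ := Real.log (2 - 2 * cos x) - Real.log (1 + s ^ 2 - 2 * s * cos x)

lemma cos_lt_one_of_mem {x : ℝ} (hx : x ∈ Set.Ioo 0 (2 * π)) : cos x < 1 := by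
  have h1 : 0 < sin (x / 2) := sin_pos_of_pos_of_lt_pi (by linarith [hx.1]) (by linarith [hx.2])
  have h2 : cos x = 1 - 2 * sin (x / 2) ^ 2 := by
    have := cos_two_mul (x / 2)
    rw [show 2 * (x / 2) = x by ring] at this
    nlinarith [sin_sq_add_cos_sq (x / 2)]
  nlinarith

lemma den_pos {s : ℝ} (hs0 : 0 ≤ s) (hs1 : s < 1) (x : ℝ) : 0 < 1 + s ^ 2 - 2 * s * cos x := by
  nlinarith [cos_le_one x, mul_nonneg hs0 (sub_nonneg.2 (cos_le_one x))]

lemma G_concave {s : ℝ} (hs0 : 0 ≤ s) (hs1 : s < 1) : ConcaveOn ℝ (Set.Ioo 0 (2 * π)) (G s) := by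
  have d1 : ∀ x ∈ Set.Ioo 0 (2 * π), HasDerivAt (G s)
      (2 * sin x / (2 - 2 * cos x) - 2 * s * sin x / (1 + s ^ 2 - 2 * s * cos x)) x := by
    intro x hx
    have a1 : HasDerivAt (fun x => 2 - 2 * cos x) (2 * sin x) x :=
      (((hasDerivAt_cos x).const_mul 2).const_sub 2).congr_deriv (by ring)
    have a2 : HasDerivAt (fun x => 1 + s ^ 2 - 2 * s * cos x) (2 * s * sin x) x :=
      (((hasDerivAt_cos x).const_mul (2 * s)).const_sub (1 + s ^ 2)).congr_deriv (by ring)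
    have := cos_lt_one_of_mem hx
    exact (a1.log (by linarith)).sub (a2.log (den_pos hs0 hs1 x).ne')
  have d2 : ∀ x ∈ Set.Ioo 0 (2 * π), HasDerivAt
      (fun x => 2 * sin x / (2 - 2 * cos x) - 2 * s * sin x / (1 + s ^ 2 - 2 * s * cos x))
      ((2 * cos x * (2 - 2 * cos x) - 2 * sin x * (2 * sin x)) / (2 - 2 * cos x) ^ 2 -
        (2 * s * cos x * (1 + s ^ 2 - 2 * s * cos x) - 2 * s * sin x * (2 * s * sin x)) /
          (1 + s ^ 2 - 2 * s * cos x) ^ 2) x := by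
    intro x hx
    have a1 : HasDerivAt (fun x => 2 - 2 * cos x) (2 * sin x) x :=
      (((hasDerivAt_cos x).const_mul 2).const_sub 2).congr_deriv (by ring)
    have a2 : HasDerivAt (fun x => 1 + s ^ 2 - 2 * s * cos x) (2 * s * sin x) x :=
      (((hasDerivAt_cos x).const_mul (2 * s)).const_sub (1 + s ^ 2)).congr_deriv (by ring)
    have := cos_lt_one_of_mem hx
    exact (((hasDerivAt_sin x).const_mul 2).div a1 (by linarith)).sub
      (((hasDerivAt_sin x).const_mul (2 * s)).div a2 (den_pos hs0 hs1 x).ne')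
  refine concaveOn_of_hasDerivWithinAt2_nonpos (convex_Ioo _ _)
    (fun x hx => (d1 x hx).continuousAt.continuousWithinAt)
    (fun x hx => (d1 x (interior_subset hx)).hasDerivWithinAt)
    (fun x hx => (d2 x (interior_subset hx)).hasDerivWithinAt) ?_
  intro x hx
  have hx' : x ∈ Set.Ioo 0 (2 * π) := interior_subset hx
  have h1 := cos_lt_one_of_mem hx'
  have h2 := den_pos hs0 hs1 x
  have h3 : sin x ^ 2 = 1 - cos x ^ 2 := sin_sq x
  have h4 := neg_one_le_cos x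
  set c := cos x with hc
  have e1 : (2 * c * (2 - 2 * c) - 2 * sin x * (2 * sin x)) / (2 - 2 * c) ^ 2 = -1 / (1 - c) := by
    have : 2 - 2 * c ≠ 0 := by linarith
    have : 1 - c ≠ 0 := by linarith
    rw [div_eq_div_iff (by positivity) this]
    linear_combination (-4 * (1 - c)) * h3
  have e2 : 2 * s * c * (1 + s ^ 2 - 2 * s * c) - 2 * s * sin x * (2 * s * sin x) =
      2 * s * (1 + s ^ 2) * c - 4 * s ^ 2 := by
    linear_combination (-4 * s ^ 2) * h3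
  rw [e1, e2, sub_nonpos, div_le_div_iff₀ (by linarith) (by positivity)]
  have h5 : 0 ≤ (1 - s) ^ 4 + 2 * s * (1 - s) ^ 2 * (1 - c) * (2 + c) := by
    have : 0 ≤ 1 - c := by linarith
    have : 0 ≤ 2 + c := by linarith
    positivity
  nlinarith

lemma sum_wrap (n : ℕ) (j : Fin (n + 1)) (c : ℝ) :
    ∑ k : Fin (n + 1), (if k.val + j.val < n + 1 then 0 else c) = j.val * c := by
  rw [Fin.sum_univ_eq_sum_range (fun k => if k + j.val < n + 1 then 0 else c)]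
  have hj := j.2
  have e : n + 1 = (n + 1 - j.val) + j.val := by omega
  conv_lhs => arg 1; rw [e]
  rw [sum_range_add, sum_eq_zero, zero_add]
  · rw [sum_congr rfl (g := fun _ => c)]
    · simp
    · intro x hx
      rw [if_neg (by omega)]
  · intro x hx
    rw [if_pos (by have := mem_range.1 hx; omega)]

lemma energy_sorted {s : ℝ} (hs0 : 0 ≤ s) (hs1 : s < 1) (n : ℕ) (θ : Fin (n + 1) → ℝ)
    (hθ : StrictMono θ) (hr : ∀ k l, θ k - θ l < 2 * π) :
    ∑ k, ∑ l, G s (θ l - θ k) ≤ (n + 1) * ∑ j : Fin (n + 1), G s (2 * π * j.val / (n + 1)) := by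
  have e1 : ∀ k, ∑ l, G s (θ l - θ k) = ∑ j, G s (θ (k + j) - θ k) := fun k =>
    (Equiv.sum_comp (Equiv.addLeft k) (fun l => G s (θ l - θ k))).symm
  simp only [e1]
  rw [sum_comm, mul_sum]
  refine sum_le_sum fun j _ => ?_
  rcases eq_or_ne j 0 with rfl | hj
  · simp
  have hj0 : 0 < j.val := Nat.pos_of_ne_zero fun h => hj (Fin.ext h)
  set x : Fin (n + 1) → ℝ := fun k =>
    θ (k + j) - θ k + (if k.val + j.val < n + 1 then 0 else 2 * π) with hx
  have hxm : ∀ k, x k ∈ Set.Ioo 0 (2 * π) := by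
    intro k
    simp only [hx]
    have hv := Fin.val_add k j
    have hk := k.2
    have hj2 := j.2
    split_ifs with h
    · rw [Nat.mod_eq_of_lt h] at hv
      have : θ k < θ (k + j) := hθ (by rw [Fin.lt_def]; omega)
      exact ⟨by linarith, by linarith [hr (k + j) k]⟩
    · have : (k.val + j.val) % (n + 1) = k.val + j.val - (n + 1) := by
        rw [Nat.mod_eq_sub_mod (by omega), Nat.mod_eq_of_lt (by omega)]
      rw [this] at hv
      have : θ (k + j) < θ k := hθ (by rw [Fin.lt_def]; omega)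
      exact ⟨by linarith [hr k (k + j)], by linarith⟩
  have hG : ∀ k, G s (θ (k + j) - θ k) = G s (x k) := by
    intro k
    simp only [hx, G]
    split_ifs
    · simp
    · rw [cos_add_two_pi]
  have hsum : ∑ k, x k = j.val * (2 * π) := by
    simp only [hx]
    rw [sum_add_distrib, sum_sub_distrib, sum_wrap,
      Equiv.sum_comp (Equiv.addRight j) θ |>.symm]
    simp
  have hn : (0 : ℝ) < n + 1 := by positivity
  have J := (G_concave hs0 hs1).le_map_sum (t := univ) (w := fun _ => 1 / ((n : ℝ) + 1)) (p := x)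
    (fun _ _ => by positivity) (by simp; field_simp) (fun k _ => hxm k)
  simp only [smul_eq_mul, ← mul_sum, hsum] at J
  simp only [hG]
  rw [show 2 * π * j.val / ((n : ℝ) + 1) = 1 / ((n : ℝ) + 1) * (j.val * (2 * π)) by ring]
  have := mul_le_mul_of_nonneg_left J hn.le
  rwa [← mul_assoc, mul_one_div_cancel hn.ne', one_mul] at this

lemma energy_angles {s : ℝ} (hs0 : 0 ≤ s) (hs1 : s < 1) (n : ℕ) (θ : Fin (n + 1) → ℝ)
    (hθ : Function.Injective θ) (hr : ∀ k l, θ k - θ l < 2 * π) :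
    ∑ k, ∑ l ∈ univ.erase k, G s (θ l - θ k) ≤
      (n + 1) * ∑ i ∈ range n, G s (2 * π * (i + 1 : ℕ) / (n + 1)) := by
  set σ := Tuple.sort θ
  have h1 := energy_sorted hs0 hs1 n (θ ∘ σ)
    ((Tuple.monotone_sort θ).strictMono_of_injective (hθ.comp σ.injective)) (fun k l => hr _ _)
  have h2 : ∑ k, ∑ l, G s ((θ ∘ σ) l - (θ ∘ σ) k) = ∑ k, ∑ l, G s (θ l - θ k) := by
    rw [← Equiv.sum_comp σ (fun k => ∑ l, G s (θ l - θ k))]
    refine sum_congr rfl fun k _ => ?_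
    exact Equiv.sum_comp σ (fun l => G s (θ l - θ (σ k)))
  rw [h2, Fin.sum_univ_eq_sum_range (fun j => G s (2 * π * j / (n + 1))), sum_range_succ'] at h1
  have h3 : ∀ k, ∑ l, G s (θ l - θ k) = G s 0 + ∑ l ∈ univ.erase k, G s (θ l - θ k) := by
    intro k
    rw [← add_sum_erase univ _ (mem_univ k), sub_self]
  simp only [h3, sum_add_distrib, sum_const, card_univ, Fintype.card_fin, nsmul_eq_mul] at h1
  push_cast at h1 ⊢
  simp only [mul_zero, zero_div] at h1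
  linarith

lemma normsq_exp (r x : ℝ) :
    ‖(r : ℂ) - Complex.exp (x * Complex.I)‖ ^ 2 = 1 + r ^ 2 - 2 * r * cos x := by
  rw [← Complex.normSq_eq_norm_sq, Complex.normSq_apply]
  simp only [Complex.sub_re, Complex.sub_im, Complex.ofReal_re, Complex.ofReal_im,
    Complex.exp_ofReal_mul_I_re, Complex.exp_ofReal_mul_I_im]
  nlinarith [sin_sq_add_cos_sq x]

lemma sym_value {s : ℝ} (hs0 : 0 ≤ s) (hs1 : s < 1) (n : ℕ) :
    Real.exp (∑ i ∈ range n, G s (2 * π * (i + 1 : ℕ) / (n + 1))) =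
      ((n + 1) * (1 - s) / (1 - s ^ (n + 1))) ^ 2 := by
  have hω := Complex.isPrimitiveRoot_exp (n + 1) (Nat.succ_ne_zero n)
  set ω := Complex.exp (2 * π * Complex.I / (n + 1 : ℕ)) with hωd
  have hp : ∀ i : ℕ, ω ^ i = Complex.exp (((2 * π * i / (n + 1) : ℝ) : ℂ) * Complex.I) := by
    intro i
    rw [hωd, ← Complex.exp_nat_mul]
    congr 1
    push_cast; ring
  have a1 : ∏ i ∈ range n, (2 - 2 * cos (2 * π * (i + 1 : ℕ) / (n + 1))) = ((n : ℝ) + 1) ^ 2 := by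
    have t := congrArg (fun z : ℂ => ‖z‖ ^ 2) hω.prod_one_sub_pow_eq_order
    simp only [norm_prod, ← prod_pow, hp] at t
    have t2 : ‖(n : ℂ) + 1‖ = (n : ℝ) + 1 := by
      rw [show (n : ℂ) + 1 = ((n + 1 : ℕ) : ℂ) by push_cast; ring, Complex.norm_natCast]; push_cast; ring
    rw [t2] at t
    rw [← t]
    refine prod_congr rfl fun i _ => ?_
    have := normsq_exp 1 (2 * π * (i + 1 : ℕ) / (n + 1))
    rw [Complex.ofReal_one] at this
    rw [this]; ring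
  have a2 : (∏ i ∈ range n, (1 + s ^ 2 - 2 * s * cos (2 * π * (i + 1 : ℕ) / (n + 1)))) * (1 - s) ^ 2 =
      (1 - s ^ (n + 1)) ^ 2 := by
    have t0 := X_pow_sub_C_eq_prod hω n.zero_lt_succ (one_pow (n + 1))
    have t := congrArg (fun p : ℂ[X] => ‖p.eval (s : ℂ)‖ ^ 2) t0
    simp only [eval_sub, eval_pow, eval_X, eval_C, eval_prod, mul_one, norm_prod, ← prod_pow, hp,
      normsq_exp] at t
    rw [prod_range_succ'] at t
    have t2 : ‖(s : ℂ) ^ (n + 1) - 1‖ ^ 2 = (1 - s ^ (n + 1)) ^ 2 := by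
      rw [show (s : ℂ) ^ (n + 1) - 1 = ((s ^ (n + 1) - 1 : ℝ) : ℂ) by push_cast; ring,
        Complex.norm_real, Real.norm_eq_abs, sq_abs]; ring
    rw [← t2, t]
    congr 1
    simp; ring
  have hpos : ∀ i ∈ range n, 0 < 2 - 2 * cos (2 * π * (i + 1 : ℕ) / (n + 1)) := by
    intro i hi
    have hi' : (i : ℝ) < n := by exact_mod_cast mem_range.1 hi
    have : cos (2 * π * (i + 1 : ℕ) / (n + 1)) < 1 := by
      apply cos_lt_one_of_mem
      constructor
      · have := pi_pos; positivity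
      · rw [div_lt_iff₀ (by positivity)]
        push_cast
        nlinarith [pi_pos]
    linarith
  rw [Real.exp_sum]
  have a3 : ∏ i ∈ range n, Real.exp (G s (2 * π * (i + 1 : ℕ) / (n + 1))) =
      ∏ i ∈ range n, (2 - 2 * cos (2 * π * (i + 1 : ℕ) / (n + 1))) /
        (1 + s ^ 2 - 2 * s * cos (2 * π * (i + 1 : ℕ) / (n + 1))) := by
    refine prod_congr rfl fun i hi => ?_
    rw [G, Real.exp_sub, Real.exp_log (hpos i hi), Real.exp_log (den_pos hs0 hs1 _)]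
  rw [a3, prod_div_distrib, a1]
  have b1 : 0 < 1 - s ^ (n + 1) := by
    exact sub_pos.2 (pow_lt_one₀ hs0 hs1 (Nat.succ_ne_zero n))
  have b2 : 0 < ∏ i ∈ range n, (1 + s ^ 2 - 2 * s * cos (2 * π * (i + 1 : ℕ) / (n + 1))) :=
    prod_pos fun i _ => den_pos hs0 hs1 _
  rw [div_pow, div_eq_div_iff b2.ne' (by positivity), ← a2]
  ring

lemma energy (n : ℕ) (τ : Fin (n + 1) → ℂ) (t : ℝ) (ht0 : 0 < t) (ht1 : t < 1)
    (hτ : ∀ k, ‖τ k‖ = t) :
    ∏ k, ∏ l ∈ univ.erase k, ‖τ k - τ l‖ ≤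
      (∏ k, ‖Qs τ (τ k)‖) * (t ^ n * ((n + 1) / (1 - (t ^ 2) ^ (n + 1)))) ^ (n + 1) := by
  have hs0 : 0 ≤ t ^ 2 := by positivity
  have hs1 : t ^ 2 < 1 := by nlinarith
  have b1 : 0 < 1 - (t ^ 2) ^ (n + 1) := by
    exact sub_pos.2 (pow_lt_one₀ hs0 hs1 (Nat.succ_ne_zero n))
  by_cases hinj : Function.Injective τ
  swap
  · obtain ⟨k, l, hkl, hne⟩ := Function.not_injective_iff.1 hinj
    rw [prod_eq_zero (mem_univ k)
      (prod_eq_zero (mem_erase.2 ⟨hne.symm, mem_univ l⟩) (by rw [hkl]; simp))]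
    positivity
  set θ : Fin (n + 1) → ℝ := fun k => Complex.arg (τ k) with hθ
  have hpol : ∀ k, τ k = t * Complex.exp (θ k * Complex.I) := by
    intro k
    rw [← hτ k]; exact (Complex.norm_mul_exp_arg_mul_I (τ k)).symm
  have hθi : Function.Injective θ := by
    intro k l h
    apply hinj
    rw [hpol k, hpol l, h]
  have E := energy_angles hs0 hs1 n θ hθi (fun k l => by
    have h1 := Complex.arg_le_pi (τ k)
    have h2 := Complex.neg_pi_lt_arg (τ l)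
    simp only [hθ]; linarith)
  have n1 : ∀ k l, ‖τ k - τ l‖ ^ 2 = t ^ 2 * (2 - 2 * cos (θ l - θ k)) := by
    intro k l
    have : τ k - τ l = t * Complex.exp (θ k * Complex.I) *
        ((1 : ℝ) - Complex.exp (((θ l - θ k : ℝ) : ℂ) * Complex.I)) := by
      have q : Complex.exp (θ k * Complex.I) * Complex.exp (((θ l - θ k : ℝ) : ℂ) * Complex.I) =
          Complex.exp (θ l * Complex.I) := by
        rw [← Complex.exp_add]; push_cast; ring_nf
      rw [hpol k, hpol l, Complex.ofReal_one]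
      linear_combination (t : ℂ) * q
    rw [this, norm_mul, norm_mul, mul_pow, normsq_exp, Complex.norm_exp_ofReal_mul_I,
      Complex.norm_real, Real.norm_of_nonneg ht0.le]
    ring
  have n2 : ∀ k l, ‖1 - conj (τ l) * τ k‖ ^ 2 =
      1 + (t ^ 2) ^ 2 - 2 * t ^ 2 * cos (θ l - θ k) := by
    intro k l
    have : 1 - conj (τ l) * τ k = -Complex.exp (((θ k - θ l : ℝ) : ℂ) * Complex.I) *
        (((t ^ 2 : ℝ) : ℂ) - Complex.exp (((θ l - θ k : ℝ) : ℂ) * Complex.I)) := by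
      rw [hpol k, hpol l, map_mul, Complex.conj_ofReal, ← Complex.exp_conj, map_mul,
        Complex.conj_ofReal, Complex.conj_I]
      have q1 : Complex.exp (((θ k - θ l : ℝ) : ℂ) * Complex.I) *
          Complex.exp (((θ l - θ k : ℝ) : ℂ) * Complex.I) = 1 := by
        rw [← Complex.exp_add]; push_cast; ring_nf; simp
      have q2 : Complex.exp (θ l * -Complex.I) * Complex.exp (θ k * Complex.I) =
          Complex.exp (((θ k - θ l : ℝ) : ℂ) * Complex.I) := by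
        rw [← Complex.exp_add]; push_cast; ring_nf
      push_cast at q1 q2 ⊢
      linear_combination -q1 - (t : ℂ) ^ 2 * q2
    rw [this, norm_mul, norm_neg, Complex.norm_exp_ofReal_mul_I, one_mul, normsq_exp]
  have n3 : ∀ k, ∀ l ∈ univ.erase k,
      ‖τ k - τ l‖ ^ 2 = ‖1 - conj (τ l) * τ k‖ ^ 2 * (t ^ 2 * Real.exp (G (t ^ 2) (θ l - θ k))) := by
    intro k l hl
    have hne : τ k - τ l ≠ 0 := sub_ne_zero.2 fun h => (mem_erase.1 hl).1 (hinj h).symm
    have p1 : 0 < ‖τ k - τ l‖ ^ 2 := pow_pos (norm_pos_iff.2 hne) 2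
    rw [n1] at p1
    have p2 : 0 < 2 - 2 * cos (θ l - θ k) := by
      by_contra h
      push Not at h
      nlinarith
    have p3 := den_pos hs0 hs1 (θ l - θ k)
    rw [n1, n2, G, Real.exp_sub, Real.exp_log p2, Real.exp_log p3]
    generalize 1 + (t ^ 2) ^ 2 - 2 * t ^ 2 * cos (θ l - θ k) = D at p3 ⊢
    field_simp
  have n4 : ∀ k, ‖Qs τ (τ k)‖ = (1 - t ^ 2) * ∏ l ∈ univ.erase k, ‖1 - conj (τ l) * τ k‖ := by
    intro k
    rw [Qs, ← mul_prod_erase univ (fun l => 1 - conj (τ l) * τ k) (mem_univ k), norm_mul,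
      norm_prod, one_sub_conj_mul, hτ, Complex.norm_real, Real.norm_of_nonneg (by linarith)]
  refine (abs_le_of_sq_le_sq' ?_ (by positivity)).2
  have l1 : (∏ k, ∏ l ∈ univ.erase k, ‖τ k - τ l‖) ^ 2 =
      (∏ k, ∏ l ∈ univ.erase k, ‖1 - conj (τ l) * τ k‖) ^ 2 * (((t ^ 2) ^ n) ^ (n + 1) *
        Real.exp (∑ k, ∑ l ∈ univ.erase k, G (t ^ 2) (θ l - θ k))) := by
    simp only [← prod_pow, Real.exp_sum]
    rw [prod_congr rfl fun k _ => prod_congr rfl (n3 k)]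
    simp only [prod_mul_distrib, prod_const, card_erase_of_mem (mem_univ _), card_univ,
      Fintype.card_fin, Nat.add_sub_cancel]
  have l2 : Real.exp (∑ k, ∑ l ∈ univ.erase k, G (t ^ 2) (θ l - θ k)) ≤
      (((n + 1) * (1 - t ^ 2) / (1 - (t ^ 2) ^ (n + 1))) ^ 2) ^ (n + 1) := by
    rw [← sym_value hs0 hs1 n, ← Real.exp_nat_mul]
    apply Real.exp_le_exp.2
    push_cast at E ⊢
    exact E
  rw [l1]
  simp only [n4, prod_mul_distrib, prod_const, card_univ, Fintype.card_fin]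
  refine (mul_le_mul_of_nonneg_left (mul_le_mul_of_nonneg_left l2 (by positivity))
    (by positivity)).trans (le_of_eq ?_)
  generalize (∏ k, ∏ l ∈ univ.erase k, ‖1 - conj (τ l) * τ k‖) = W
  generalize (1 - (t ^ 2) ^ (n + 1)) = D
  generalize (1 - t ^ 2) = U
  generalize ((n : ℝ) + 1) = V
  simp only [mul_pow, div_pow]
  ring

lemma exists_le_of_prod {m : ℕ} (hm : 1 ≤ m) (x y : Fin m → ℝ) (hy : ∀ i, 0 < y i)
    (h : ∏ i, x i ≤ ∏ i, y i) : ∃ i, x i ≤ y i := by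
  by_contra hc
  push Not at hc
  have hne : (univ : Finset (Fin m)).Nonempty := ⟨⟨0, hm⟩, mem_univ _⟩
  exact absurd (prod_lt_prod_of_nonempty (fun i _ => hy i) (fun i _ => hc i) hne) (not_lt.2 h)

lemma equal_mod {m : ℕ} (hm : 1 ≤ m) (τ : Fin m → ℂ) (t : ℝ) (ht0 : 0 < t) (ht1 : t < 1)
    (hτ : ∀ k, ‖τ k‖ = t) :
    ∃ ζ : ℂ, ‖ζ‖ < 1 ∧ N τ ζ = 0 ∧
      ‖Q τ ζ‖ ≤ m / (m + 1 - t ^ (2 * m)) * (∏ k, ‖τ k‖) * ‖Qs τ ζ‖ := by
  have hτ' : ∀ k, τ k ≠ 0 ∧ ‖τ k‖ < 1 := fun k =>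
    ⟨norm_pos_iff.1 (by rw [hτ]; exact ht0), by rw [hτ]; exact ht1⟩
  obtain ⟨K, ζ, hζ, hK⟩ := N_factor τ hτ'
  have C := criterion hm τ hτ' K ζ hζ hK
  obtain ⟨n, rfl⟩ : ∃ n, m = n + 1 := ⟨m - 1, by omega⟩
  have E := energy n τ t ht0 ht1 hτ
  have hA : ∏ k, ‖τ k‖ = t ^ (n + 1) := by simp [hτ]
  have hQs : ∀ z, ‖z‖ ≤ 1 → 0 < ‖Qs τ z‖ := fun z hz =>
    norm_pos_iff.2 (prod_ne_zero_iff.2 fun k _ => one_sub_ne (hτ' k).2 hz)
  have hR : 0 < ∏ k, ‖Qs τ (τ k)‖ := prod_pos fun k _ => hQs _ (hτ' k).2.le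
  have hu : t ^ (2 * (n + 1)) < 1 := pow_lt_one₀ ht0.le ht1 (by omega)
  rw [hA] at C ⊢
  rw [show (t ^ (n + 1)) ^ 2 = t ^ (2 * (n + 1)) by ring] at C
  rw [← pow_mul] at E
  push_cast at C ⊢
  set u := t ^ (2 * (n + 1)) with hud
  have hu1 : 0 < 1 - u := by linarith
  have hu2 : 0 < (n : ℝ) + 1 + 1 - u := by have : (0 : ℝ) ≤ n := Nat.cast_nonneg n; linarith
  obtain ⟨i, hi⟩ := exists_le_of_prod hm (fun i => ‖Q τ (ζ i)‖)
    (fun i => ((n : ℝ) + 1) / (n + 1 + 1 - u) * t ^ (n + 1) * ‖Qs τ (ζ i)‖)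
    (fun i => by have := hQs _ (hζ i).le; positivity) (by
      have hM : 0 < (∏ k, ‖Qs τ (τ k)‖) * (((n : ℝ) + 1) / (1 - u) + 1) ^ (n + 1) := by positivity
      apply le_of_mul_le_mul_right _ hM
      refine C.trans ?_
      have hY : 0 ≤ ∏ i, ‖Qs τ (ζ i)‖ := prod_nonneg fun _ _ => norm_nonneg _
      refine (mul_le_mul_of_nonneg_left (mul_le_mul_of_nonneg_left E (by positivity)) hY).trans
        (le_of_eq ?_)
      rw [prod_mul_distrib, prod_const, card_univ, Fintype.card_fin]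
      have e : t * (t ^ n * ((n + 1) / (1 - u))) =
          ((n : ℝ) + 1) / (n + 1 + 1 - u) * t ^ (n + 1) * (((n : ℝ) + 1) / (1 - u) + 1) := by
        field_simp
        ring
      have e2 := congrArg (fun z => z ^ (n + 1)) e
      simp only [mul_pow t, mul_pow _ (((n : ℝ) + 1) / (1 - u) + 1)] at e2
      linear_combination (∏ i, ‖Qs τ (ζ i)‖) * (∏ k, ‖Qs τ (τ k)‖) * e2)
  refine ⟨ζ i, hζ i, ?_, hi⟩
  rw [hK, prod_eq_zero (mem_univ i) (by simp [g]), mul_zero]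

lemma finish {m : ℕ} (τ : Fin m → ℂ) (hτ : ∀ k, ‖τ k‖ < 1) (c : ℝ)
    (h : ∃ ζ : ℂ, ‖ζ‖ < 1 ∧ N τ ζ = 0 ∧ ‖Q τ ζ‖ ≤ c * (∏ k, ‖τ k‖) * ‖Qs τ ζ‖) :
    ∃ ζ : ℂ, ‖ζ‖ < 1 ∧
      deriv (fun z : ℂ => z * ∏ k, (z - τ k) / (1 - starRingEnd ℂ (τ k) * z)) ζ = 0 ∧
      ‖ζ * ∏ k, (ζ - τ k) / (1 - starRingEnd ℂ (τ k) * ζ)‖ ≤
        c * ‖deriv (fun z : ℂ => z * ∏ k, (z - τ k) / (1 - starRingEnd ℂ (τ k) * z)) 0‖ * ‖ζ‖ := by
  obtain ⟨ζ, h1, h2, h3⟩ := h
  have hne : ∀ k, 1 - conj (τ k) * ζ ≠ 0 := fun k => one_sub_ne (hτ k) h1.le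
  have hQ : 0 < ‖Qs τ ζ‖ := norm_pos_iff.2 (prod_ne_zero_iff.2 fun k _ => hne k)
  refine ⟨ζ, h1, by rw [deriv_eq τ ζ hne, h2, zero_div], ?_⟩
  rw [deriv_zero, prod_div_distrib, norm_mul, norm_div, mul_comm]
  exact mul_le_mul_of_nonneg_right ((div_le_iff₀ hQ).2 h3) (norm_nonneg _)

end

end Pool.Agent.P.MP_c3cac0_an
end

-- part Pool.Agent.P.MP_c3cac0_an.Line
section

set_option autoImplicit false

namespace Pool.Agent.P.MP_c3cac0_an

open Finset Polynomial ComplexConjugate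

noncomputable section

lemma real_line {m : ℕ} (hm : 1 ≤ m) (r : Fin m → ℝ) (h0 : ∀ k, r k ≠ 0) (h1 : ∀ k, |r k| < 1)
    (hs : 0 ≤ ∑ k, (1 - r k ^ 2) / r k) :
    ∃ x : ℝ, 0 < x ∧ x < 1 ∧
      (∏ k, (x - r k) / (1 - r k * x) +
        x * ∑ k, (∏ l ∈ univ.erase k, (x - r l) / (1 - r l * x)) *
          ((1 - r k * r k) / (1 - r k * x) ^ 2)) = 0 ∧
      ∏ k, |(x - r k) / (1 - r k * x)| ≤ ∏ k, |r k| := by
  have hsq : ∀ k, 0 < 1 - r k ^ 2 := fun k => by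
    have := abs_lt.1 (h1 k); nlinarith
  have hpos : ∃ k, 0 < r k := by
    by_contra hc
    push Not at hc
    have : ∑ k, (1 - r k ^ 2) / r k < 0 := by
      have hne : (univ : Finset (Fin m)).Nonempty := ⟨⟨0, hm⟩, mem_univ _⟩
      have := sum_lt_sum_of_nonempty hne (f := fun k => (1 - r k ^ 2) / r k) (g := fun _ => 0)
        (fun k _ => div_neg_of_pos_of_neg (hsq k) (lt_of_le_of_ne (hc k) (h0 k)))
      simpa using this
    linarith
  obtain ⟨k0, hk0, hmin⟩ := exists_min_image (univ.filter fun k => 0 < r k) r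
    (by obtain ⟨k, hk⟩ := hpos; exact ⟨k, by simpa using hk⟩)
  have hk0' : 0 < r k0 := by simpa using hk0
  have hlt : r k0 < 1 := (abs_lt.1 (h1 k0)).2
  have hden : ∀ x, 0 ≤ x → x ≤ 1 → ∀ k, 0 < 1 - r k * x := by
    intro x hx hx1 k
    have := abs_lt.1 (h1 k)
    rcases le_total (r k) 0 with h | h
    · nlinarith
    · nlinarith
  have hsign : ∀ x, 0 ≤ x → x < r k0 → ∀ k, 0 < (r k - x) / r k := by
    intro x hx hx1 k
    rcases lt_or_gt_of_ne (h0 k) with h | h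
    · exact div_pos_of_neg_of_neg (by linarith) h
    · have := hmin k (by simpa using h)
      exact div_pos (by linarith) h
  obtain ⟨x, hx, hx'⟩ := exists_hasDerivAt_eq_zero (a := 0) (b := r k0)
    (f := fun z => z * ∏ k, (z - r k) / (1 - r k * z))
    (f' := fun x => ∏ k, (x - r k) / (1 - r k * x) +
        x * ∑ k, (∏ l ∈ univ.erase k, (x - r l) / (1 - r l * x)) *
          ((1 - r k * r k) / (1 - r k * x) ^ 2)) hk0'
    (fun x hx => (hasDerivAt_gen r r x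
      (fun k => (hden x hx.1 (hx.2.trans hlt.le) k).ne')).continuousAt.continuousWithinAt)
    (by
      rw [prod_eq_zero (mem_univ k0) (f := fun k => (r k0 - r k) / (1 - r k * r k0)) (by simp)]
      simp)
    (fun x hx => hasDerivAt_gen r r x (fun k => (hden x hx.1.le (hx.2.le.trans hlt.le) k).ne'))
  refine ⟨x, hx.1, hx.2.trans hlt, hx', ?_⟩
  set L : ℝ → ℝ := fun y => ∑ k, (Real.log ((r k - y) / r k) - Real.log (1 - r k * y)) with hL
  have hder : ∀ y, 0 ≤ y → y < r k0 →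
      HasDerivAt L (∑ k, (-1 / r k / ((r k - y) / r k) - (-(r k * 1)) / (1 - r k * y))) y := by
    intro y hy hy1
    apply HasDerivAt.fun_sum
    intro k _
    have a1 : HasDerivAt (fun y => (r k - y) / r k) (-1 / r k) y :=
      ((hasDerivAt_id y).const_sub (r k)).div_const _
    have a2 : HasDerivAt (fun y => 1 - r k * y) (-(r k * 1)) y :=
      ((hasDerivAt_id y).const_mul (r k)).const_sub 1
    exact (a1.log (hsign y hy hy1 k).ne').sub (a2.log (hden y hy (hy1.le.trans hlt.le) k).ne')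
  have hneg : ∀ y, 0 ≤ y → y < r k0 →
      ∑ k, (-1 / r k / ((r k - y) / r k) - (-(r k * 1)) / (1 - r k * y)) ≤ 0 := by
    intro y hy hy1
    have hy2 : 0 < 1 - y ^ 2 := by nlinarith
    have : (1 - y ^ 2) * ∑ k, (-1 / r k / ((r k - y) / r k) - (-(r k * 1)) / (1 - r k * y)) ≤
        -∑ k, (1 - r k ^ 2) / r k := by
      rw [mul_sum, ← sum_neg_distrib]
      refine sum_le_sum fun k _ => ?_
      have b1 := hsign y hy hy1 k
      have b2 := hden y hy (hy1.le.trans hlt.le) k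
      have b3 := h0 k
      have b4 : r k - y ≠ 0 := by intro h; rw [h] at b1; simp at b1
      have b5 : 0 < r k * (r k - y) := by
        have : r k * (r k - y) = (r k - y) / r k * r k ^ 2 := by field_simp
        rw [this]; positivity
      have b6 : 0 ≤ 1 + r k ^ 2 - 2 * r k * y := by nlinarith [sq_nonneg (r k - y)]
      have e : -((1 - r k ^ 2) / r k) -
          (1 - y ^ 2) * (-1 / r k / ((r k - y) / r k) - (-(r k * 1)) / (1 - r k * y)) =
          (1 - r k ^ 2) * (y * (1 + r k ^ 2 - 2 * r k * y)) / ((r k * (r k - y)) * (1 - r k * y)) := by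
        have := b2.ne'
        field_simp
        ring
      have : 0 ≤ (1 - r k ^ 2) * (y * (1 + r k ^ 2 - 2 * r k * y)) /
          ((r k * (r k - y)) * (1 - r k * y)) :=
        div_nonneg (mul_nonneg (hsq k).le (mul_nonneg hy b6)) (mul_pos b5 b2).le
      linarith
    by_contra hc
    push Not at hc
    have := mul_pos hy2 hc
    linarith
  have hanti : AntitoneOn L (Set.Icc 0 x) := by
    apply antitoneOn_of_deriv_nonpos (convex_Icc 0 x)
    · intro y hy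
      exact (hder y hy.1 (hy.2.trans_lt hx.2)).continuousAt.continuousWithinAt
    · intro y hy
      rw [interior_Icc] at hy
      exact (hder y hy.1.le (hy.2.trans hx.2)).differentiableAt.differentiableWithinAt
    · intro y hy
      rw [interior_Icc] at hy
      rw [(hder y hy.1.le (hy.2.trans hx.2)).deriv]
      exact hneg y hy.1.le (hy.2.trans hx.2)
  have hLx : L x ≤ L 0 := hanti ⟨le_rfl, hx.1.le⟩ ⟨hx.1.le, le_rfl⟩ hx.1.le
  have hL0 : L 0 = 0 := by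
    simp only [hL]
    refine sum_eq_zero fun k _ => ?_
    simp [h0 k]
  have hexp : Real.exp (L x) = ∏ k, ((r k - x) / r k) / (1 - r k * x) := by
    simp only [hL]
    rw [Real.exp_sum]
    refine prod_congr rfl fun k _ => ?_
    rw [Real.exp_sub, Real.exp_log (hsign x hx.1.le hx.2 k),
      Real.exp_log (hden x hx.1.le (hx.2.le.trans hlt.le) k)]
  have hle : ∏ k, ((r k - x) / r k) / (1 - r k * x) ≤ 1 := by
    rw [← hexp]; exact Real.exp_le_one_iff.2 (by linarith)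
  have e : ∏ k, |(x - r k) / (1 - r k * x)| =
      (∏ k, ((r k - x) / r k) / (1 - r k * x)) * ∏ k, |r k| := by
    rw [← prod_mul_distrib]
    refine prod_congr rfl fun k _ => ?_
    have b1 := hsign x hx.1.le hx.2 k
    have b2 := hden x hx.1.le (hx.2.le.trans hlt.le) k
    rw [← abs_of_pos (div_pos b1 b2), ← abs_mul, ← abs_neg]
    congr 1
    have := h0 k
    field_simp
    ring
  rw [e]
  exact mul_le_of_le_one_left (prod_nonneg fun k _ => abs_nonneg _) hle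

lemma line_aux {m : ℕ} (hm : 1 ≤ m) (τ : Fin m → ℂ) (hτ : ∀ k, τ k ≠ 0 ∧ ‖τ k‖ < 1)
    (u : ℂ) (hu : ‖u‖ = 1) (r : Fin m → ℝ) (hr : ∀ k, τ k = r k * u)
    (hs : 0 ≤ ∑ k, (1 - r k ^ 2) / r k) :
    ∃ ζ : ℂ, ‖ζ‖ < 1 ∧ N τ ζ = 0 ∧ ‖Q τ ζ‖ ≤ (∏ k, ‖τ k‖) * ‖Qs τ ζ‖ := by
  have hn : ∀ k, ‖τ k‖ = |r k| := fun k => by rw [hr]; simp [hu]
  have h0 : ∀ k, r k ≠ 0 := fun k h => (hτ k).1 (by rw [hr, h]; simp)
  obtain ⟨x, hx0, hx1, hx, hle⟩ := real_line hm r h0 (fun k => hn k ▸ (hτ k).2) hs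
  have huu : conj u * u = 1 := by
    rw [mul_comm, Complex.mul_conj, Complex.normSq_eq_norm_sq, hu]; simp
  have hz : ‖(x : ℂ) * u‖ < 1 := by simp [hu, abs_of_pos hx0, hx1]
  have hd : ∀ k, 1 - conj (τ k) * (x * u) = ((1 - r k * x : ℝ) : ℂ) := by
    intro k; rw [hr, map_mul, Complex.conj_ofReal]; push_cast
    linear_combination (-(r k : ℂ) * x) * huu
  have hd2 : ∀ k, 1 - conj (τ k) * τ k = ((1 - r k * r k : ℝ) : ℂ) := by
    intro k; rw [hr, map_mul, Complex.conj_ofReal]; push_cast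
    linear_combination (-(r k : ℂ) * r k) * huu
  have hd3 : ∀ k, (x * u - τ k) / (1 - conj (τ k) * (x * u)) =
      u * (((x - r k) / (1 - r k * x) : ℝ) : ℂ) := by
    intro k; rw [hd, hr]; push_cast; ring
  have hne : ∀ k, 1 - conj (τ k) * (x * u) ≠ 0 := fun k => one_sub_ne (hτ k).2 hz.le
  have hQ : Qs τ (x * u) ≠ 0 := prod_ne_zero_iff.2 fun k _ => hne k
  refine ⟨x * u, hz, ?_, ?_⟩
  · have e1 := deriv_eq τ _ hne
    rw [(hasDerivAt_gen τ (fun k => conj (τ k)) _ hne).deriv] at e1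
    simp only [hd3] at e1
    simp only [hd, hd2, prod_mul_distrib, prod_const] at e1
    have hx' := congrArg (fun t : ℝ => (t : ℂ)) hx
    obtain ⟨n, rfl⟩ : ∃ n, m = n + 1 := ⟨m - 1, by omega⟩
    simp only [card_erase_of_mem (mem_univ _), card_univ, Fintype.card_fin,
      Nat.add_sub_cancel] at e1
    have e2 : N τ (x * u) / Qs τ (x * u) ^ 2 = 0 := by
      rw [← e1]
      push_cast at hx' ⊢
      simp only [mul_assoc, ← mul_sum]
      linear_combination u ^ (n + 1) * hx'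
    rcases div_eq_zero_iff.1 e2 with h | h
    · exact h
    · exact absurd h (pow_ne_zero 2 hQ)
  · have e1 : ‖Q τ (x * u)‖ / ‖Qs τ (x * u)‖ = ∏ k, |(x - r k) / (1 - r k * x)| := by
      rw [← norm_div, Q, Qs, ← prod_div_distrib, norm_prod]
      refine prod_congr rfl fun k _ => ?_
      rw [hd3, norm_mul, hu, one_mul, Complex.norm_real, Real.norm_eq_abs]
    rw [← e1, div_le_iff₀ (norm_pos_iff.2 hQ)] at hle
    simpa only [hn] using hle

lemma line {m : ℕ} (hm : 1 ≤ m) (τ : Fin m → ℂ) (hτ : ∀ k, τ k ≠ 0 ∧ ‖τ k‖ < 1)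
    (u : ℂ) (hr : ∀ k, ∃ r : ℝ, τ k = r * u) :
    ∃ ζ : ℂ, ‖ζ‖ < 1 ∧ N τ ζ = 0 ∧ ‖Q τ ζ‖ ≤ (∏ k, ‖τ k‖) * ‖Qs τ ζ‖ := by
  choose r hr using hr
  have hu0 : u ≠ 0 := by
    rintro rfl
    exact (hτ ⟨0, hm⟩).1 (by rw [hr]; simp)
  have hn : (‖u‖ : ℂ) ≠ 0 := by exact_mod_cast norm_ne_zero_iff.2 hu0
  have hu : ‖u / (‖u‖ : ℂ)‖ = 1 := by simp [hu0]
  rcases le_total 0 (∑ k, (1 - (r k * ‖u‖) ^ 2) / (r k * ‖u‖)) with h | h
  · refine line_aux hm τ hτ (u / ‖u‖) hu (fun k => r k * ‖u‖) (fun k => ?_) h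
    rw [hr]; push_cast; field_simp
  · refine line_aux hm τ hτ (-(u / ‖u‖)) (by rw [norm_neg, hu]) (fun k => -(r k * ‖u‖))
      (fun k => ?_) ?_
    · rw [hr]; push_cast; field_simp
    · simp only [neg_sq, div_neg, sum_neg_distrib]
      linarith

end

end Pool.Agent.P.MP_c3cac0_an
end
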